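import Pool.Agent.Lib.MP_09a217_co.Cong.Walsh
import Pool.Agent.Lib.MP_09a217_co.Cong.Odd

set_option autoImplicit false

/-! Units of prime order which fix no bent function; prime powers dividing the number of bent
functions. -/

namespace Pool.Agent.Lib.MP09a217.CG

open Finset

section Field

variable {K : Type*} [Field K] [Fintype K] [DecidableEq K]
variable {U : Type*} [AddCommGroup U] [Fintype U]

omit [AddCommGroup U] [Fintype U] in
/-- The sum over the field is `±1` plus a nonzero multiple of the order. -/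
lemma sum_form {p : ℕ} (heven : Even (Fintype.card K)) {g : Kˣ} (hg : orderOf g = p)
    {f : K × U → ZMod 2} (h3 : ∀ x : K × U, f ((g : K) * x.1, x.2) = f x) (v : U) :
    ∃ t : ℤ, t ≠ 0 ∧ ∑ a : K, sg (f (a, v)) = sg (f (0, v)) + p * t := by
  have hcard : Fintype.card Kˣ = Fintype.card K - 1 := Fintype.card_units K
  rw [sum_units (fun a => sg (f (a, v)))]
  obtain ⟨t, ht⟩ := orderOf_dvd_sum g (fun u : Kˣ => sg (f ((u : K), v))) (by
    intro u
    have := h3 ((u : K), v)
    simp only at this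
    rw [← this, Units.val_mul, mul_comm])
  rw [hg] at ht
  -- parity
  have hodd : Odd (∑ u : Kˣ, sg (f ((u : K), v))) := by
    have e2 : ∀ z : ZMod 2, ∃ w : ℤ, sg z = 1 + 2 * w := by
      intro z
      rcases sg_cases z with h | h
      · exact ⟨0, by rw [h]; ring⟩
      · exact ⟨-1, by rw [h]; ring⟩
    choose w hw using e2
    simp only [hw]
    rw [Finset.sum_add_distrib, ← Finset.mul_sum]
    simp only [Finset.sum_const, Finset.card_univ, nsmul_eq_mul, mul_one]
    rw [hcard]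
    have hpos : 0 < Fintype.card K := Fintype.card_pos
    obtain ⟨r, hr⟩ := heven
    have e3 : ((Fintype.card K - 1 : ℕ) : ℤ) = 2 * ((r : ℤ) - 1) + 1 := by
      have : 1 ≤ Fintype.card K := hpos
      push_cast [this]
      rw [hr]; push_cast; ring
    rw [e3]
    exact ⟨(r : ℤ) - 1 + ∑ x : Kˣ, w (f ((x : K), v)), by ring⟩
  refine ⟨t, ?_, by rw [ht]⟩
  rintro rfl
  rw [ht, mul_zero] at hodd
  exact absurd hodd (by decide)

/-- Lower bound for the square of `±1` plus a nonzero multiple of `p`. -/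
lemma sq_ge {p : ℕ} (hp : p.Prime) (z : ZMod 2) {t : ℤ} (ht0 : t ≠ 0) :
    ((p : ℤ) - 1) ^ 2 ≤ (sg z + p * t) ^ 2 := by
  have hp2 : (2 : ℤ) ≤ p := by exact_mod_cast hp.two_le
  have ht1 : 1 ≤ |t| := Int.one_le_abs ht0
  have h6 : (p : ℤ) - 1 ≤ |sg z + p * t| := by
    have e4 : |(p : ℤ) * t| = p * |t| := by
      rw [abs_mul, abs_of_nonneg (by linarith)]
    have e5 : |sg z| = 1 := by
      rcases sg_cases z with h | h <;> rw [h] <;> simp
    have e6 := abs_sub_abs_le_abs_sub ((p : ℤ) * t) (-sg z)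
    rw [abs_neg, e4, e5, sub_neg_eq_add, add_comm ((p : ℤ) * t)] at e6
    nlinarith
  rw [← sq_abs (sg z + p * t)]
  exact pow_le_pow_left₀ (by linarith) h6 2

omit [DecidableEq K] in
/-- The square of some sum over a coset of the field is at most the mean. -/
lemma exists_small [Nonempty U] {f : K × U → ZMod 2} (hf : DB f) :
    ∃ v : U, (∑ a : K, sg (f (a, v))) ^ 2 ≤ Fintype.card K := by
  by_contra hc
  push Not at hc
  have hav := avg hf (AddMonoidHom.inl K U) (by
    intro a b h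
    simpa using h)
  have h1 : ∀ x ∈ (univ : Finset (K × U)), (Fintype.card K : ℤ) <
      (∑ a : K, sg (f (x + AddMonoidHom.inl K U a))) ^ 2 := by
    rintro ⟨c, v⟩ _
    have e1 : ∑ a : K, sg (f ((c, v) + AddMonoidHom.inl K U a)) =
        ∑ a : K, sg (f (a, v)) := by
      rw [← Equiv.sum_comp (Equiv.addLeft c) (fun a => sg (f (a, v)))]
      apply Finset.sum_congr rfl
      intro a _
      simp
    rw [e1]
    exact hc v
  have h2 := Finset.sum_lt_sum_of_nonempty (univ_nonempty (α := K × U)) h1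
  rw [hav, Finset.sum_const, Finset.card_univ, nsmul_eq_mul, mul_comm] at h2
  exact lt_irrefl _ h2

omit [DecidableEq K] in
/-- The correlations of the sums over the field. -/
lemma corr {f : K × U → ZMod 2} (hf : DB f) (a : U) (ha : a ≠ 0) :
    ∑ v : U, (∑ x : K, sg (f (x, v))) * (∑ y : K, sg (f (y, v + a))) = 0 := by
  have h1 : ∀ v : U, (∑ x : K, sg (f (x, v))) * (∑ y : K, sg (f (y, v + a))) =
      ∑ b : K, ∑ x : K, sg (f (x, v) + f (x + b, v + a)) := by
    intro v
    rw [Finset.sum_mul, Finset.sum_comm]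
    apply Finset.sum_congr rfl
    intro x _
    rw [Finset.mul_sum, ← Equiv.sum_comp (Equiv.addLeft x)
      (fun y => sg (f (x, v)) * sg (f (y, v + a)))]
    apply Finset.sum_congr rfl
    intro b _
    rw [sg_add]
    rfl
  simp only [h1]
  rw [Finset.sum_comm]
  apply Finset.sum_eq_zero
  intro b _
  have h2 := hf (b, a) (by
    intro h
    exact ha (Prod.mk.inj h).2)
  rw [Fintype.sum_prod_type, Finset.sum_comm] at h2
  exact h2

omit [DecidableEq K] in
/-- The square sum of the sums over the field. -/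
lemma corr_zero {f : K × U → ZMod 2} (hf : DB f) :
    ∑ v : U, (∑ x : K, sg (f (x, v))) ^ 2 = Fintype.card K * Fintype.card U := by
  have h1 : ∀ v : U, (∑ x : K, sg (f (x, v))) ^ 2 =
      ∑ b : K, ∑ x : K, sg (f (x, v) + f (x + b, v)) := by
    intro v
    rw [sq, Finset.sum_mul, Finset.sum_comm]
    apply Finset.sum_congr rfl
    intro x _
    rw [Finset.mul_sum, ← Equiv.sum_comp (Equiv.addLeft x)
      (fun y => sg (f (x, v)) * sg (f (y, v)))]
    apply Finset.sum_congr rfl
    intro b _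
    rw [sg_add]
    rfl
  simp only [h1]
  rw [Finset.sum_comm, Finset.sum_eq_single 0]
  · simp only [add_zero, add_self2, sg_zero]
    simp [mul_comm]
  · intro b _ hb
    have h2 := hf (b, 0) (by
      intro h
      exact hb (Prod.mk.inj h).1)
    rw [Fintype.sum_prod_type, Finset.sum_comm] at h2
    simpa only [Prod.mk_add_mk, add_zero] using h2
  · simp

end Field

/-- A sum of an even number of signs is even. -/
lemma even_sum {X : Type*} [Fintype X] (hX : Even (Fintype.card X)) {F : X → ℤ}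
    (hF : ∀ x, F x = 1 ∨ F x = -1) : (2 : ℤ) ∣ ∑ x, F x := by
  have e2 : ∀ x, ∃ w : ℤ, F x = 1 + 2 * w := by
    intro x
    rcases hF x with h | h
    · exact ⟨0, by rw [h]; ring⟩
    · exact ⟨-1, by rw [h]; ring⟩
  choose w hw using e2
  simp only [hw]
  rw [Finset.sum_add_distrib, ← Finset.mul_sum]
  simp only [Finset.sum_const, Finset.card_univ, nsmul_eq_mul, mul_one]
  obtain ⟨r, hr⟩ := hX
  rw [hr]
  exact ⟨r + ∑ x, w x, by push_cast; ring⟩

/-- An odd power of two is not a square. -/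
lemma sq_ne {k : ℕ} (r : ℤ) : r ^ 2 ≠ 2 ^ (2 * k + 1) := by
  intro h
  have h7 : r ^ 2 = 2 * (2 ^ k) ^ 2 := by
    rw [h, ← pow_mul, mul_comm k 2, ← pow_succ']
  have h8 : ¬ IsSquare (2 : ℚ) := by
    have := Nat.Prime.irrational_sqrt Nat.prime_two
    intro h
    obtain ⟨r, hr⟩ := h
    apply this
    refine ⟨|r|, ?_⟩
    push_cast
    rw [← Real.sqrt_sq_eq_abs]
    congr 1
    have : ((2 : ℚ) : ℝ) = (r : ℝ) * r := by rw [hr]; push_cast; ring
    push_cast at this
    rw [this]
    ring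
  apply h8
  refine ⟨(r : ℚ) / 2 ^ k, ?_⟩
  have h9 : (r : ℚ) ^ 2 = 2 * (2 ^ k) ^ 2 := by exact_mod_cast h7
  field_simp
  linarith

/-- Fourier inversion: the values of a function whose transform is flat. -/
lemma flat {m k : ℕ} (hm : 1 ≤ m) (S : (Fin m → ZMod 2) → ℤ)
    (h0 : ∑ v, S v ^ 2 = 2 ^ (2 * k)) (h : ∀ a, a ≠ 0 → ∑ v, S v * S (v + a) = 0)
    (v : Fin m → ZMod 2) : ∃ r : ℤ, 2 ^ m * S v = 2 ^ (k + 1) * r := by
  -- the transform
  have h1 : ∀ w : Fin m → ZMod 2, (∑ v, S v * sg (dot w v)) ^ 2 = (2 ^ k) ^ 2 := by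
    intro w
    have e1 : (∑ v, S v * sg (dot w v)) ^ 2 =
        ∑ a : Fin m → ZMod 2, sg (dot w a) * ∑ v, S v * S (v + a) := by
      rw [sq, Finset.sum_mul]
      have e2 : ∀ v : Fin m → ZMod 2, S v * sg (dot w v) * ∑ u, S u * sg (dot w u) =
          ∑ a, sg (dot w a) * (S v * S (v + a)) := by
        intro v
        rw [Finset.mul_sum, sum_shift' (fun u => S v * sg (dot w v) * (S u * sg (dot w u))) v]
        apply Finset.sum_congr rfl
        intro a _
        rw [dot_add_right, sg_add]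
        have := sg_mul_self (dot w v)
        linear_combination (S v * S (v + a) * sg (dot w a)) * this
      simp only [e2]
      rw [Finset.sum_comm]
      apply Finset.sum_congr rfl
      intro a _
      rw [Finset.mul_sum]
    rw [e1, Finset.sum_eq_single 0]
    · rw [dot_zero_right, sg_zero, one_mul, ← pow_mul, mul_comm k 2, ← h0]
      apply Finset.sum_congr rfl
      intro v _
      rw [add_zero, sq]
    · intro a _ ha
      rw [h a ha, mul_zero]
    · simp
  have h2 : ∀ w : Fin m → ZMod 2, ∃ s : ℤ, (s = 1 ∨ s = -1) ∧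
      ∑ v, S v * sg (dot w v) = 2 ^ k * s := by
    intro w
    rcases sq_eq_sq_iff_eq_or_eq_neg.1 (h1 w) with h | h
    · exact ⟨1, Or.inl rfl, by rw [h, mul_one]⟩
    · exact ⟨-1, Or.inr rfl, by rw [h]; ring⟩
  choose s hs hs2 using h2
  have h3 : ∑ w : Fin m → ZMod 2, (∑ u, S u * sg (dot w u)) * sg (dot w v) = 2 ^ m * S v := by
    simp only [Finset.sum_mul]
    rw [Finset.sum_comm, Finset.sum_eq_single v]
    · have : ∀ w : Fin m → ZMod 2, S v * sg (dot w v) * sg (dot w v) = S v := by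
        intro w
        rw [mul_assoc, sg_mul_self, mul_one]
      simp only [this]
      rw [Finset.sum_const, Finset.card_univ, Fintype.card_fun, ZMod.card, Fintype.card_fin,
        nsmul_eq_mul]
      push_cast
      ring
    · intro u _ hu
      have : ∀ w : Fin m → ZMod 2, S u * sg (dot w u) * sg (dot w v) =
          S u * sg (dot w (u + v)) := by
        intro w
        rw [dot_add_right, sg_add, mul_assoc]
      simp only [this]
      rw [← Finset.mul_sum, char_sum, if_neg, mul_zero]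
      intro h
      apply hu
      have h4 : u + v + v = 0 + v := by rw [h]
      rwa [add_assoc, vadd_self, add_zero, zero_add] at h4
    · simp
  obtain ⟨r, hr⟩ := even_sum (X := Fin m → ZMod 2)
    (by
      rw [Fintype.card_fun, ZMod.card, Fintype.card_fin]
      exact Nat.even_pow.2 ⟨even_two, by omega⟩)
    (F := fun w => s w * sg (dot w v)) (by
      intro w
      rcases hs w with h | h <;> rcases sg_cases (dot w v) with h' | h' <;> rw [h, h'] <;> simp)
  refine ⟨r, ?_⟩
  rw [← h3]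
  simp only [hs2, mul_assoc]
  rw [← Finset.mul_sum, hr]
  ring

section Field

variable {K : Type*} [Field K] [Fintype K] [DecidableEq K]

/-- Units of prime order `p` fix no bent function. -/
lemma no_fix {d m k p : ℕ} (hK : Fintype.card K = 2 ^ d) (hd : Odd d) (hk : d + m = 2 * k)
    (hp : p.Prime) (hpd : p ∣ 2 ^ d - 1)
    (h : 2 ^ (d + m) < 2 ^ m * (p - 1) ^ 2 + 2 ^ (d + 2) * p) {g : Kˣ} (hg : orderOf g = p)
    {f : K × (Fin m → ZMod 2) → ZMod 2} (hf : DB f)
    (h3 : ∀ x : K × (Fin m → ZMod 2), f ((g : K) * x.1, x.2) = f x) : False := by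
  have hm : Odd m := by
    obtain ⟨j, hj⟩ := hd
    exact ⟨k - j - 1, by omega⟩
  have hd1 : 1 ≤ d := by
    obtain ⟨j, hj⟩ := hd
    omega
  have hp2 : p ≠ 2 := by
    rintro rfl
    have h6 : 2 ∣ 2 ^ d := dvd_pow_self 2 (by omega)
    have h7 : 1 ≤ 2 ^ d := Nat.one_le_two_pow
    omega
  have hpd' : (p : ℤ) ∣ 2 ^ d - 1 := by
    have h7 : 1 ≤ 2 ^ d := Nat.one_le_two_pow
    have := Int.natCast_dvd_natCast.2 hpd
    push_cast [h7] at this
    exact this
  have hcop : IsCoprime (p : ℤ) 2 := by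
    have h1 : Nat.Coprime p 2 := (Nat.coprime_primes hp Nat.prime_two).2 hp2
    exact_mod_cast Nat.isCoprime_iff_coprime.2 h1
  obtain ⟨v, hv⟩ := exists_small hf
  obtain ⟨t, ht0, ht⟩ := sum_form (by rw [hK]; exact Nat.even_pow.2 ⟨even_two, by omega⟩) hg h3 v
  have hge := sq_ge hp (f (0, v)) ht0
  rw [← ht] at hge
  obtain ⟨r, hr⟩ := flat (k := k) (by obtain ⟨j, hj⟩ := hm; omega)
    (fun v => ∑ a : K, sg (f (a, v))) (by
      rw [corr_zero hf, hK, Fintype.card_fun, ZMod.card, Fintype.card_fin, ← hk]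
      push_cast
      rw [pow_add]) (fun a ha => corr hf a ha) v
  have hS1 : (p : ℤ) ∣ 2 ^ d - (∑ a : K, sg (f (a, v))) ^ 2 := by
    rw [ht]
    have e : (2 : ℤ) ^ d - (sg (f (0, v)) + p * t) ^ 2 =
        (2 ^ d - 1) - p * (t * (2 * sg (f (0, v)) + p * t)) := by
      have := sg_mul_self (f (0, v))
      linear_combination -this
    rw [e]
    exact dvd_sub hpd' (Dvd.intro _ rfl)
  rw [hK] at hv
  push_cast at hv
  generalize (∑ a : K, sg (f (a, v))) = S at *
  have hr2 : 2 ^ m * S ^ 2 = 2 ^ (d + 2) * r ^ 2 := by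
    have e1 : (2 : ℤ) ^ m * (2 ^ m * S ^ 2) = 2 ^ m * (2 ^ (d + 2) * r ^ 2) := by
      have e2 : (2 : ℤ) ^ m * 2 ^ (d + 2) = 2 ^ (k + 1) * 2 ^ (k + 1) := by
        rw [← pow_add, ← pow_add]
        congr 1
        omega
      linear_combination (2 ^ m * S + 2 ^ (k + 1) * r) * hr - r ^ 2 * e2
    exact mul_left_cancel₀ (by positivity) e1
  have hh : (2 : ℤ) ^ (d + m) < 2 ^ m * ((p : ℤ) - 1) ^ 2 + 2 ^ (d + 2) * p := by
    have h9 : ((p - 1 : ℕ) : ℤ) = (p : ℤ) - 1 := by
      have := hp.one_le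
      push_cast [this]; ring
    rw [← h9]
    exact_mod_cast h
  obtain ⟨j, rfl⟩ := hm
  rcases Nat.eq_zero_or_pos j with rfl | hj
  · -- one variable
    have e1 : (2 : ℤ) ^ (d + 2) = 4 * 2 ^ d := by ring
    rw [e1] at hr2
    have hpos : (0 : ℤ) < 2 ^ d := by positivity
    have e2 : 2 * r ^ 2 ≤ 1 := by
      have : (2 : ℤ) ^ (2 * 0 + 1) = 2 := by norm_num
      rw [this] at hr2
      nlinarith
    have e3 : r ^ 2 = 0 := by
      have := sq_nonneg r
      omega
    have e4 : S ^ 2 = 0 := by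
      have : (2 : ℤ) ^ (2 * 0 + 1) = 2 := by norm_num
      rw [e3, this] at hr2
      linarith
    rw [e4, sub_zero] at hS1
    have h5 : (p : ℤ) ∣ 1 := by
      have := dvd_sub hS1 hpd'
      simpa using this
    have h6 : p ∣ 1 := by exact_mod_cast h5
    exact hp.one_lt.ne' (Nat.dvd_one.1 h6)
  · obtain ⟨i, rfl⟩ : ∃ i, j = i + 1 := ⟨j - 1, by omega⟩
    have e1 : (2 : ℤ) ^ (2 * (i + 1) + 1) * (2 ^ d - S ^ 2) =
        2 ^ (d + 2) * (2 ^ (2 * i + 1) - r ^ 2) := by
      have e2 : (2 : ℤ) ^ (2 * (i + 1) + 1) * 2 ^ d = 2 ^ (d + 2) * 2 ^ (2 * i + 1) := by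
        rw [← pow_add, ← pow_add]
        congr 1
        omega
      linear_combination e2 - hr2
    have h5 : (p : ℤ) ∣ 2 ^ (2 * i + 1) - r ^ 2 := by
      have h6 : (p : ℤ) ∣ 2 ^ (d + 2) * (2 ^ (2 * i + 1) - r ^ 2) := by
        rw [← e1]
        exact Dvd.dvd.mul_left hS1 _
      exact (hcop.pow_right (n := d + 2)).dvd_of_dvd_mul_left h6
    have h7 : 0 ≤ (2 : ℤ) ^ (2 * i + 1) - r ^ 2 := by
      by_contra hc
      push Not at hc
      have h8 : (0 : ℤ) < 2 ^ (d + 2) := by positivity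
      have h9 : (0 : ℤ) < 2 ^ (2 * (i + 1) + 1) := by positivity
      nlinarith
    have h8 : (2 : ℤ) ^ (2 * i + 1) - r ^ 2 ≠ 0 := by
      intro h9
      exact sq_ne r (by linarith)
    have h9 : (p : ℤ) ≤ 2 ^ (2 * i + 1) - r ^ 2 := Int.le_of_dvd (by omega) h5
    have h10 : (2 : ℤ) ^ (d + 2) * p ≤ 2 ^ (2 * (i + 1) + 1) * (2 ^ d - S ^ 2) := by
      rw [e1]
      exact mul_le_mul_of_nonneg_left h9 (by positivity)
    have h11 : (2 : ℤ) ^ (d + (2 * (i + 1) + 1)) = 2 ^ (2 * (i + 1) + 1) * 2 ^ d := by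
      rw [← pow_add]
      congr 1
      omega
    rw [h11] at hh
    have h12 : (0 : ℤ) < 2 ^ (2 * (i + 1) + 1) := by positivity
    nlinarith

end Field

section Field

variable {K : Type*} [Field K] [Fintype K] [DecidableEq K]

/-- Prime powers dividing the number of units divide the number of bent functions, if the units
of prime order fix no bent function. -/
theorem pow_dvd_bn {U : Type*} [AddCommGroup U] [Fintype U] {p a : ℕ} (hp : p.Prime)
    (hpK : p ^ a ∣ Fintype.card K - 1)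
    (hno : ∀ (g : Kˣ) (f : K × U → ZMod 2), orderOf g = p → DB f →
      (∀ x : K × U, f ((g : K) * x.1, x.2) = f x) → False) :
    p ^ a ∣ bn (K × U) := by
  have : Fact p.Prime := ⟨hp⟩
  have hcard : Fintype.card Kˣ = Fintype.card K - 1 := Fintype.card_units K
  obtain ⟨H, hH⟩ := Sylow.exists_subgroup_card_pow_prime p (G := Kˣ) (n := a) (by
    rw [Nat.card_eq_fintype_card, hcard]; exact hpK)
  let _ := unitsAct K U
  rw [← hH]
  apply dvd_of_free (G := H) (X := {f : K × U → ZMod 2 // DB f})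
  intro g f hgf
  by_contra hg1
  have hfin : IsOfFinOrder g := isOfFinOrder_of_finite g
  have hord : orderOf g ∣ p ^ a := by
    rw [← hH]
    exact orderOf_dvd_natCard g
  obtain ⟨b, hb, hb2⟩ := (Nat.dvd_prime_pow hp).1 hord
  have hb0 : b ≠ 0 := by
    rintro rfl
    rw [pow_zero, orderOf_eq_one_iff] at hb2
    exact hg1 hb2
  obtain ⟨c, rfl⟩ := Nat.exists_eq_succ_of_ne_zero hb0
  have hord2 : orderOf (g ^ p ^ c) = p := by
    rw [orderOf_pow' g (pow_ne_zero _ hp.ne_zero), hb2, Nat.succ_eq_add_one,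
      Nat.gcd_eq_right (pow_dvd_pow p (Nat.le_succ c)), pow_succ]
    exact Nat.mul_div_cancel_left _ (pow_pos hp.pos c)
  have hfix : ∀ j : ℕ, (g ^ j) • f = f := by
    intro j
    induction j with
    | zero => rw [pow_zero, one_smul]
    | succ j ih => rw [pow_succ, mul_smul, hgf, ih]
  apply hno ((g ^ p ^ c : H) : Kˣ) f.1 _ f.2
  · intro x
    have h4 := hfix (p ^ c)
    exact congrFun (congrArg Subtype.val h4) x
  · rw [Subgroup.orderOf_coe, hord2]

end Field

end Pool.Agent.Lib.MP09a217.CG
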